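import Pool.Agent.K3h9.RBC.Red

/-!
# The directed red-blue cut problem is NP-complete

Given a digraph whose arcs are coloured red and blue, and numbers `r` and `b`, it is NP-complete to
decide whether some cut `δ⁺(X)`, `X` a nonempty proper subset of the vertex set, contains at most `r`
red arcs and at most `b` blue arcs; this holds with parallel arcs allowed, and also for digraphs
without loops and parallel arcs. So there is a polynomial-time algorithm if and only if P = NP.

Polynomial time is Mathlib's `Turing.TM2ComputableInPolyTime` on bit strings, `NP` is defined by
certificates, hardness is under polynomial-time many-one reductions (`Pool/Agent/NPC/Defs.lean`,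
`Pool/Agent/NPC/Classes.lean`). The problem is defined in `Pool/Agent/K3h9/RBC/Defs.lean`.

Proof. Reduction from the clique problem (itself reduced from 3SAT in `Pool/Agent/H634R2`, with the
Cook-Levin theorem in `Pool/Agent/NPC`). Let `H` be a graph with `m` edges and `k ≥ 2` with
`k (k - 1) / 2 ≤ m`. The digraph has a vertex for every vertex and for every edge of `H`, and two
blocks `S` and `T` of `m + 2` vertices each. All arcs with head in `S` and all arcs with tail in `T`
are present, and red. There are red arcs from the first vertex `s` of `S` to the edges of `H` and from
every edge of `H` to its two ends, and blue arcs from the vertices of `H` to the first vertex of `T`.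
A nonempty proper subset `X` that does not contain `S`, or that meets `T`, leaves at least `m + 1`
red arcs in `δ⁺(X)`. Otherwise the number of blue arcs in `δ⁺(X)` is the number of the vertices of
`H` in `X`, and the number of red arcs is at least the number of edges of `H` with an end outside
`X`, with equality if `X` contains exactly the edges of `H` with both ends in `X`. So there is a cut
with at most `m - k (k - 1) / 2` red and `k` blue arcs if and only if `H` has a clique of size `k`.
-/

set_option autoImplicit false

namespace Pool.Agent.Results.MP_ac2b6c_lc.NPComplete

open Pool.Agent.NPC Pool.Agent.K3h9.RBC

/-- The directed red-blue cut problem is NP-complete, both for digraphs that may have parallel arcs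
(first line) and for digraphs without loops and parallel arcs (second line); it is solvable in
polynomial time if and only if P = NP. -/
theorem result :
    (InNPP RedBlueCut ∧ NPHardP RedBlueCut) ∧
    (InNPP SimpleRedBlueCut ∧ NPHardP SimpleRedBlueCut) ∧
    (InPP RedBlueCut ↔ ∀ L : Set (List Bool), InNP L → InP L) :=
  ⟨⟨inNPP_cut, hardI_cut.toNPHardP⟩, ⟨inNPP_simple, hardI_simple.toNPHardP⟩,
    inPP_iff inNPP_cut hardI_cut.toNPHardP⟩

end Pool.Agent.Results.MP_ac2b6c_lc.NPComplete
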